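import Mathlib

set_option autoImplicit false

namespace Pool.Agent.Results.MP_ecbd44_co.Hankel

open Finset Polynomial

section
variable {R : Type} [CommRing R]

/-- the functional `P ↦ (d/ds)^i (P E) (0)` -/
noncomputable def T (H : ℕ → R) (i : ℕ) : R[X] →ₗ[R] R :=
  ∑ a ∈ range (i + 1), ((i.descFactorial a : R) * H (i - a)) • Polynomial.lcoeff R a

lemma T_apply (H : ℕ → R) (i : ℕ) (P : R[X]) :
    T H i P = ∑ a ∈ range (i + 1), (i.descFactorial a : R) * H (i - a) * P.coeff a := by
  simp [T, LinearMap.sum_apply]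

lemma T_monomial (H : ℕ → R) (i a : ℕ) (r : R) :
    T H i (monomial a r) = (i.descFactorial a : R) * H (i - a) * r := by
  rw [T_apply]
  simp only [coeff_monomial, mul_ite, mul_zero, sum_ite_eq, mem_range]
  split_ifs with h
  · rfl
  · rw [Nat.descFactorial_of_lt (by omega)]; simp

/-- the operator `P ↦ P' + s^e P` -/
noncomputable def Phi (R : Type) [CommRing R] (e : ℕ) : Module.End R R[X] :=
  derivative + LinearMap.mulLeft R (X ^ e)

lemma desc_add (i a e : ℕ) :
    i.descFactorial (a + e) = i.descFactorial a * (i - a).descFactorial e := by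
  have := Nat.descFactorial_mul_descFactorial (n := i) (k := a) (m := a + e) (Nat.le_add_right _ _)
  rw [← this, Nat.add_sub_cancel_left, mul_comm]

lemma T_succ (H : ℕ → R) (x : R) (e : ℕ)
    (hH : ∀ n, H (n + 1) = x * H n + (n.descFactorial e : R) * H (n - e)) (i : ℕ) (P : R[X]) :
    T H (i + 1) P = T H i ((Phi R e + algebraMap R (Module.End R R[X]) x) P) := by
  induction P using Polynomial.induction_on' with
  | add p q hp hq => simp only [map_add, hp, hq]
  | monomial a r =>
    simp only [Phi, LinearMap.add_apply, LinearMap.mulLeft_apply, Module.algebraMap_end_apply,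
      map_add, map_smul, derivative_monomial, X_pow_mul_monomial, T_monomial, smul_eq_mul]
    rw [desc_add]
    rcases le_or_gt a i with h | h
    · have e1 : i + 1 - a = (i - a) + 1 := by omega
      have e2 : i - (a + e) = i - a - e := by omega
      rw [e1, e2]
      rcases a with _ | a
      · simp [hH]; ring
      · have e3 : i - (a + 1 - 1) = i - (a + 1) + 1 := by omega
        rw [e3, hH, Nat.succ_descFactorial_succ, Nat.descFactorial_succ, Nat.add_sub_cancel]
        have e4 : ((i - a : ℕ) : R) = i - a := by rw [Nat.cast_sub (by omega)]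
        push_cast
        rw [e4]
        ring
    · rw [Nat.descFactorial_of_lt h]
      rcases a with _ | a
      · omega
      · rcases (Nat.lt_succ_iff.1 h).eq_or_lt with rfl | h'
        · rw [Nat.descFactorial_self]
          simp [Nat.descFactorial_self, Nat.factorial_succ]; ring
        · rw [Nat.add_sub_cancel, Nat.descFactorial_of_lt h',
            Nat.descFactorial_of_lt (Nat.succ_lt_succ h')]
          simp

lemma T_add (H : ℕ → R) (x : R) (e : ℕ)
    (hH : ∀ n, H (n + 1) = x * H n + (n.descFactorial e : R) * H (n - e)) (j i : ℕ) :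
    H (i + j) = T H i (((Phi R e + algebraMap R (Module.End R R[X]) x) ^ j) 1) := by
  induction j generalizing i with
  | zero =>
    rw [pow_zero, Module.End.one_apply, ← monomial_zero_one, T_monomial]; simp
  | succ j ih =>
    rw [pow_succ', Module.End.mul_apply, ← T_succ H x e hH, ← ih]
    congr 1; omega

lemma Phi_pow_map (e k : ℕ) :
    ((Phi R e) ^ k) 1 = (((Phi ℤ e) ^ k) 1).map (Int.castRingHom R) := by
  induction k with
  | zero => simp
  | succ k ih =>
    rw [pow_succ', pow_succ', Module.End.mul_apply, Module.End.mul_apply, ih]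
    simp [Phi, derivative_map]

lemma det_eq (H : ℕ → R) (x : R) (e : ℕ) (h0 : H 0 = 1)
    (hH : ∀ n, H (n + 1) = x * H n + (n.descFactorial e : R) * H (n - e)) (n : ℕ) :
    ∃ c : ℤ, (Matrix.of fun i j : Fin n => H (i + j)).det
      = ((∏ i : Fin n, ((i : ℕ).factorial : ℤ)) * c : ℤ) := by
  let L : Matrix (Fin n) (Fin n) R := Matrix.of fun i a => (i.val.descFactorial a : R) * H (i - a)
  let N : Matrix (Fin n) (Fin n) ℤ := Matrix.of fun a k => (((Phi ℤ e) ^ k.val) 1).coeff a
  let B : Matrix (Fin n) (Fin n) R := Matrix.of fun k j => x ^ (j.val - k.val) * (j.val.choose k : R)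
  have hM : (Matrix.of fun i j : Fin n => H (i + j)) = L * (N.map (Int.castRingHom R) * B) := by
    ext i j
    rw [Matrix.of_apply, T_add H x e hH, T_apply, Matrix.mul_apply]
    have hc : Commute (Phi R e) (algebraMap R (Module.End R R[X]) x) :=
      (Algebra.commutes x _).symm
    have hP : ∀ a : ℕ, (((Phi R e + algebraMap R (Module.End R R[X]) x) ^ j.val) 1).coeff a
        = ∑ k : Fin n, ((((Phi ℤ e) ^ k.val) 1).coeff a : ℤ) *
          (x ^ (j.val - k.val) * (j.val.choose k : R)) := by
      intro a
      rw [hc.add_pow, LinearMap.sum_apply, finsetSum_coeff,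
        Fin.sum_univ_eq_sum_range (fun k => (((((Phi ℤ e) ^ k) 1).coeff a : ℤ) : R) *
          (x ^ (j.val - k) * (j.val.choose k : R))) n]
      refine sum_subset_zero_on_sdiff (range_subset_range.2 j.2) (fun k hk => ?_) (fun k _ => ?_)
      · rw [Nat.choose_eq_zero_of_lt (by simpa using (mem_sdiff.1 hk).2)]; simp
      · rw [← map_pow, Module.End.mul_apply, Module.End.mul_apply, Module.End.natCast_apply,
          Module.algebraMap_end_apply, map_smul, map_nsmul, Phi_pow_map]
        simp
        ring
    rw [Fin.sum_univ_eq_sum_range (fun a => (i.val.descFactorial a : R) * H (i - a) *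
      (((Phi R e + algebraMap R (Module.End R R[X]) x) ^ j.val) 1).coeff a) n |>.symm.symm.symm
      |> fun h => (sum_subset_zero_on_sdiff (range_subset_range.2 i.2) (fun k hk => by
        rw [Nat.descFactorial_of_lt (by simpa using (mem_sdiff.1 hk).2)]; simp)
        (fun _ _ => rfl)).trans h]
    refine sum_congr rfl fun a _ => ?_
    rw [hP, Matrix.mul_apply]
    simp [L, N, B]
  have hL : L.det = ∏ i : Fin n, ((i : ℕ).factorial : R) := by
    rw [Matrix.det_of_isLowerTriangular]
    · refine prod_congr rfl fun i _ => ?_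
      simp [L, h0, Nat.descFactorial_self]
    · intro i a h
      have : i.val < a.val := h
      simp [L, Nat.descFactorial_of_lt this]
  have hB : B.det = 1 := by
    rw [Matrix.det_of_isUpperTriangular]
    · simp [B]
    · intro k j h
      have : j.val < k.val := h
      simp [B, Nat.choose_eq_zero_of_lt this]
  refine ⟨N.det, ?_⟩
  rw [hM, Matrix.det_mul, Matrix.det_mul, hL, hB, ← RingHom.mapMatrix_apply, ← RingHom.map_det]
  simp

end

theorem result : ∀ d : ℕ, 2 ≤ d → ∀ H : ℕ → Polynomial ℤ,
    (∀ n, n ≤ d - 1 → H n = Polynomial.X ^ n) →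
    (∀ n, d ≤ n → H n = Polynomial.X * H (n - 1) +
      Polynomial.C (∏ k ∈ Finset.Icc 1 (d - 1), ((n : ℤ) - k)) * H (n - d)) →
    ∀ n : ℕ, 1 ≤ n → ∃ c : ℤ,
      (Matrix.of fun i j : Fin n => H (i + j)).det = Polynomial.C c ∧
      (∏ i ∈ Finset.range n, (i.factorial : ℤ)) ∣ c := by
  intro d hd H h1 h2 n _
  obtain ⟨e, rfl⟩ : ∃ e, d = e + 1 := ⟨d - 1, by omega⟩
  rw [Nat.add_sub_cancel] at h1 h2
  have hH : ∀ n, H (n + 1) = X * H n + (n.descFactorial e : ℤ[X]) * H (n - e) := by
    intro n
    rcases le_or_gt e n with h | h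
    · rw [h2 (n + 1) (by omega), Nat.add_sub_cancel, Nat.add_sub_add_right]
      congr 2
      rw [← C_eq_natCast]
      congr 1
      rw [Nat.descFactorial_eq_prod_range, Nat.cast_prod, ← Finset.Ico_add_one_right_eq_Icc,
        prod_Ico_eq_prod_range, Nat.add_sub_cancel]
      refine prod_congr rfl fun k hk => ?_
      have := mem_range.1 hk
      rw [Nat.cast_sub (by omega)]
      push_cast
      ring
    · rw [h1 (n + 1) h, h1 n h.le, Nat.descFactorial_of_lt h, pow_succ']
      simp
  obtain ⟨c, hc⟩ := det_eq H X e (by rw [h1 0 (Nat.zero_le _), pow_zero]) hH n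
  refine ⟨_, by rw [hc, eq_intCast], ?_⟩
  rw [Fin.prod_univ_eq_prod_range (fun i => (i.factorial : ℤ)) n]
  exact Dvd.intro _ rfl

end Pool.Agent.Results.MP_ecbd44_co.Hankel
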